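import Pool.Agent.H456.Pub.Out

/-!
# The average order of the 2-Selmer group of the elliptic curves over `F(t)`, `F` a finite field of odd characteristic

`Eqn F d` (equations with `deg aᵢ ≤ i d`), `cls` (isomorphism class over `F(t)`) and `rev` (the equation in the coordinate
`1/t`) are in `Pool.Agent.H456.RN.Defs`; `IsCongr` and `Least` (families defined by finitely many congruence conditions) are
in `Pool.Agent.H456.BQ.XDef`; `Quot (SameClass E (Tors E 2))` is the 2-Selmer group (Galois cocycles modulo coboundaries),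
see `Pool.Agent.H456.Pub.Def`.
-/

open Polynomial Filter Pool.Agent.H456.EC
open Pool.Agent.H456.BQ (IsCongr)
open Pool.Agent.H456.Pub (SameClass Tors)
open scoped Topology

namespace Pool.Agent.Results.MP_8e5827_nt.AverageTwoSelmerOddChar

/-- the order of the 2-Selmer group of `E` -/
noncomputable def selmerOrder {F : Type} [Field F] (E : WeierstrassCurve (RatFunc F)) : ℕ :=
  Nat.card (Quot (SameClass E (Tors E 2)))

/-- the 2-Selmer group of `E` is finite -/
def FiniteSelmer {F : Type} [Field F] (E : WeierstrassCurve (RatFunc F)) : Prop :=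
  Finite (Quot (SameClass E (Tors E 2)))

/-- Let `F` be a finite field of odd characteristic with `q` elements and `K = F(t)`. The isomorphism classes of elliptic
curves over `K` of height at most `q^d` form the finite set `cls '' Eqn F d`, their 2-Selmer groups are finite, and the
average of the orders of the 2-Selmer groups over this set tends to `3`. More generally let `U` be a family defined by
finitely many congruence conditions on the coefficients of an equation of least height, with at least one member. Then `U`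
has positive lower density and the average of the orders of the 2-Selmer groups over `U` tends to `3`. -/
theorem result (F : Type) [Field F] [Fintype F] (h2 : (2 : F) ≠ 0) :
    (∀ d : ℕ, (cls '' Eqn F d).Finite ∧ ∀ κ ∈ cls '' Eqn F d, FiniteSelmer κ.out) ∧
    Tendsto (fun d : ℕ => (∑ᶠ κ ∈ cls '' Eqn F d, (selmerOrder κ.out : ℝ)) / ((cls '' Eqn F d).ncard : ℝ)) atTop (𝓝 3) ∧
    ∀ U : Set (MulAction.orbitRel.Quotient (WeierstrassCurve.VariableChange (RatFunc F)) (WeierstrassCurve (RatFunc F))),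
      IsCongr F U → (∃ d, (cls '' Eqn F d ∩ U).Nonempty) →
      (∃ δ : ℝ, 0 < δ ∧ ∀ᶠ d : ℕ in atTop, δ * ((cls '' Eqn F d).ncard : ℝ) ≤ ((cls '' Eqn F d ∩ U).ncard : ℝ)) ∧
      Tendsto (fun d : ℕ => (∑ᶠ κ ∈ cls '' Eqn F d ∩ U, (selmerOrder κ.out : ℝ)) / ((cls '' Eqn F d ∩ U).ncard : ℝ))
        atTop (𝓝 3) := by
  have key : ∀ U : Set (Pool.Agent.H456.BQ.KC F), IsCongr F U → (∃ d, (cls '' Eqn F d ∩ U).Nonempty) →
      (∃ δ : ℝ, 0 < δ ∧ ∀ᶠ d : ℕ in atTop, δ * ((cls '' Eqn F d).ncard : ℝ) ≤ ((cls '' Eqn F d ∩ U).ncard : ℝ)) ∧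
      Tendsto (fun d : ℕ => (∑ᶠ κ ∈ cls '' Eqn F d ∩ U, (selmerOrder κ.out : ℝ)) / ((cls '' Eqn F d ∩ U).ncard : ℝ))
        atTop (𝓝 3) := by
    intro U hU hne
    refine ⟨(Pool.Agent.H456.Coh.fam_lim h2 hU hne).1, ?_⟩
    have h := (Pool.Agent.H456.Coh.fam_lim h2 hU hne).2.1
    simp only [Pool.Agent.H456.Pub.s2_card] at h
    exact h
  refine ⟨fun d => ⟨Pool.Agent.H456.BQ.finite_cls d, fun κ hκ =>
    (Pool.Agent.H456.Pub.card_tors κ.out 2).2.2 (Pool.Agent.H456.Coh.fin_s2 h2 hκ)⟩, ?_, key⟩
  have h := (key Set.univ ⟨1, 0, one_ne_zero, fun _ _ _ _ _ _ _ _ => by simp⟩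
    ⟨1, by rw [Set.inter_univ]; exact Pool.Agent.H456.BQ.ne_cls h2 le_rfl⟩).2
  simpa only [Set.inter_univ] using h

end Pool.Agent.Results.MP_8e5827_nt.AverageTwoSelmerOddChar
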