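import Mathlib
import Pool.Agent.H905.SH.MainS
import Pool.Graph.R_seed8.W307.RT.Tors

/-!
# The average of `2 ^ rank * #Ш[2]` over the elliptic curves with a subgroup `Z/2 x Z/4` or `Z/2 x Z/6`

Consider all elliptic curves over `ℚ` whose group of rational points contains a group isomorphic to
`Z/2 x Z/4`, or all those for which it contains a group isomorphic to `Z/2 x Z/6`, ordered by
height. We prove that the average of `2 ^ rank E(ℚ) * #Ш(E/ℚ)[2]` over the curves of height at most
`H` is bounded by a constant, for both families. In particular the average order of the 2-torsion of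
the Tate-Shafarevich group is bounded, and the proportion of the curves with `#Ш(E/ℚ)[2] ≥ N` is at
most `C / N`, uniformly in `H`. By Mazur's theorem these are the curves with torsion subgroup
`Z/2 x Z/4`, `Z/2 x Z/8` or `Z/2 x Z/6`.

For these curves `#E(ℚ)[2] = 4`, so that `#Sel_2(E/ℚ) = 4 * 2 ^ rank * #Ш[2]`.
The Tate-Shafarevich group `Ш(E/ℚ)` is defined by the classes of continuous cocycles of
`Gal(ℚ̄/ℚ)` with values in `W(ℚ̄)` that become coboundaries over all the completions `ℚ_p` and `ℝ`
(file `Pool.Graph.R_pool_sql_team_seeded_f72693b1.W262.SH.Def`).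

Outline. A complete 2-descent with the local conditions at the odd primes bounds
`2 ^ rank * #Ш[2]` by the number of pairs of square classes that are locally the image of a point.
The curves are `y² = x (x + M(a,b)) (x + N(a,b))` with coprime `a`, `b`; the values of the linear
factors of `M`, `N`, `M - N` occur with multiplicities (`M = a²`, `N = b²`, respectively
`M = a³ (a + 2 b)`, `N = b³ (b + 2 a)`). At a prime dividing one such value exactly once the local
image is determined also for these multiplicities (file `LocS`), and the number of the pairs is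
averaged with the upper bound sieve and the character sum estimates of the library (project RT,
which treats the rank). The Tate-Shafarevich groups are compared under the change of variables to
the short Weierstrass model (files `Iso`, `ShaIso`).
-/

set_option autoImplicit false

namespace Pool.Agent.Results.MP_8e5827_nt.TorsionFamiliesHeight

open Finset Filter

open Pool.Agent.W262.SH (Sha2)

/-- the curve `y² = x³ + A x + B` over `ℚ` -/
def E (A B : ℤ) : WeierstrassCurve ℚ := ⟨0, 0, 0, (A : ℚ), (B : ℚ)⟩

open Classical in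
/-- The pairs `(A, B)` of integers such that `4 A³ + 27 B² ≠ 0`, there is no prime `p` with
`p⁴ ∣ A` and `p⁶ ∣ B`, the height `max (4 |A|³) (27 B²)` is at most `H`, and `Z/2 x Z/m` embeds in
the group of the rational points of `y² = x³ + A x + B`. (The bounds `|A|, |B| ≤ H` follow from the
bound of the height. Every elliptic curve over `ℚ` is isomorphic to `E A B` for exactly one pair
with the first two properties.) -/
noncomputable def Fam (m H : ℕ) : Finset (ℤ × ℤ) :=
  ((Icc (-(H : ℤ)) H) ×ˢ (Icc (-(H : ℤ)) H)).filter (fun c : ℤ × ℤ =>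
    4 * c.1 ^ 3 + 27 * c.2 ^ 2 ≠ 0 ∧ 4 * |c.1| ^ 3 ≤ H ∧ 27 * c.2 ^ 2 ≤ H ∧
    (∀ p : ℕ, p.Prime → ¬ ((p : ℤ) ^ 4 ∣ c.1 ∧ (p : ℤ) ^ 6 ∣ c.2)) ∧
    ∃ f : ZMod 2 × ZMod m →+ (E c.1 c.2).toAffine.Point, Function.Injective f)

lemma Fam_eq (m H : ℕ) : Fam m H = Pool.Agent.W307.RT.Cv m H := by
  classical
  unfold Fam Pool.Agent.W307.RT.Cv
  apply filter_congr
  intro c _
  have h : Pool.Agent.W307.RT.HasT m (Pool.Agent.W307.RT.Sh c.1 c.2) ↔
      ∃ f : ZMod 2 × ZMod m →+ (E c.1 c.2).toAffine.Point, Function.Injective f :=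
    Pool.Agent.W307.RT.tors_iff
  rw [h]

/-- For the families of the elliptic curves over `ℚ` with a subgroup `Z/2 x Z/4` and `Z/2 x Z/6`:
the number of the curves of height at most `H` tends to infinity, `Ш(E/ℚ)[2]` is finite, and the
average of `2 ^ rank E(ℚ) * #Ш(E/ℚ)[2]` over the curves of height at most `H` is bounded. -/
theorem result (m : ℕ) (hm : m = 4 ∨ m = 6) :
    Tendsto (fun H : ℕ => (Fam m H).card) atTop atTop ∧
    (∀ H : ℕ, ∀ c ∈ Fam m H, Finite (Sha2 (E c.1 c.2))) ∧
    ∃ C : ℝ, ∀ H : ℕ,
      ∑ c ∈ Fam m H, (2 : ℝ) ^ Module.finrank ℤ (E c.1 c.2).toAffine.Point *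
        Nat.card (Sha2 (E c.1 c.2)) ≤ C * (Fam m H).card := by
  classical
  simp only [Fam_eq, Pool.Agent.W262.SH.sha2_eq]
  rcases hm with rfl | rfl
  · exact ⟨Pool.Agent.W307.RT.tendsto_of_low Pool.Agent.W29.RT.low4,
      fun H c hc => Pool.Agent.H905.SH.finSha Pool.Agent.H905.SH.parv4 hc,
      Pool.Agent.H905.SH.main4S⟩
  · exact ⟨Pool.Agent.W307.RT.tendsto_of_low Pool.Agent.W376.RTL.low6,
      fun H c hc => Pool.Agent.H905.SH.finSha Pool.Agent.H905.SH.parv6 hc,
      Pool.Agent.H905.SH.main6S⟩

end Pool.Agent.Results.MP_8e5827_nt.TorsionFamiliesHeight
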